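import Pool.Agent.H53.NR.Targets

/-!
# Board nrt_modules, module NR2: the theorem of Nešetřil and Rödl for one pattern
-/

set_option autoImplicit false

namespace Pool.Agent.H92.NR

open Pool.Agent.H68.BP Pool.Agent.H58.SF Pool.Agent.H53.GC Pool.Agent.H53.NR

/-- from the system to the order -/
theorem arrow_of {Q P X κ : Type} [LinearOrder Q] {a b n : ℕ} {tA : Fin a → X}
    {dA : Fin a → Fin a → X} {tB : Fin b → X} {dB : Fin b → Fin b → X} {π : P → Q} {t : P → X}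
    {d : P → P → X} (e : P ≃ Fin n) {t' : Fin n → X} {d' : Fin n → Fin n → X}
    (h1 : ∀ x y, π x < π y → e x < e y) (h2 : ∀ x, t' (e x) = t x)
    (h3 : ∀ x y, π x < π y → d' (e x) (e y) = d x y)
    (h : ∀ χ : (Fin a → P) → κ, ∃ φ : Fin b → P, StrictMono (fun i => π (φ i)) ∧
        (∀ i, t (φ i) = tB i) ∧ (∀ i j, i < j → d (φ i) (φ j) = dB i j) ∧
        ∀ f f' : Fin a → Fin b, OrdCopy tA dA tB dB f → OrdCopy tA dA tB dB f' →
          χ (fun i => φ (f i)) = χ (fun i => φ (f' i))) (χ : (Fin a → Fin n) → κ) :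
    ∃ β : Fin b → Fin n, OrdCopy tB dB t' d' β ∧ ∀ f f' : Fin a → Fin b,
      OrdCopy tA dA tB dB f → OrdCopy tA dA tB dB f' →
        χ (fun i => β (f i)) = χ (fun i => β (f' i)) := by
  obtain ⟨φ, g1, g2, g3, g4⟩ := h (fun g => χ (fun i => e (g i)))
  refine ⟨fun i => e (φ i), ⟨fun i j hij => h1 _ _ (g1 hij), fun i => (h2 _).trans (g2 i),
    fun i j hij => (h3 _ _ (g1 hij)).trans (g3 i j hij)⟩, fun f f' hf hf' => ?_⟩
  exact g4 f f' hf hf'

/-- The theorem of Nešetřil and Rödl for one pattern. -/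
theorem pf_NR2 (h1 : T_RSS) (h2 : T_PCT) (h3 : T_LIN) : T_NR2 := by
  intro V X κ _ _ c fr M a b tA dA tB dB hB
  obtain ⟨p, hp⟩ := h1 a b κ
  obtain ⟨P1, hP1, π1, t1, d1, hr1, -⟩ := h2 V X (Fin p) κ c fr M a b tA dA tB dB
    {β | StrictMono β} (fun β hβ => hβ) (fun χ => by
      obtain ⟨β, hβ, hβ2⟩ := hp χ
      exact ⟨β, hβ, fun f f' hf hf' => hβ2 f f' hf.mono hf'.mono⟩)
  obtain ⟨n1, e1, t1', d1', k1, k2, k3, -⟩ := h3 X (Fin p) P1 fr π1 t1 d1
  obtain ⟨P2, hP2, π2, t2, d2, hr2, hok⟩ := h2 V X (Fin n1) κ c fr M a b tA dA tB dB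
    {β | OrdCopy tB dB t1' d1' β} (fun β hβ => hβ.mono) (fun χ => by
      obtain ⟨β, hβ, hβ2⟩ := arrow_of e1 k1 k2 k3 hr1 χ
      exact ⟨β, hβ, hβ2⟩)
  have hsys := hok t1' d1' (fun β hβ i => (hβ.type i).symm) (fun β hβ i j hij =>
    (hβ.pair i j hij).symm) hB
  obtain ⟨n, e, tC, dC, l1, l2, l3, l4⟩ := h3 X (Fin n1) P2 fr π2 t2 d2
  refine ⟨n, tC, dC, ?_, fun χ => arrow_of e l1 l2 l3 hr2 χ⟩
  intro m s hm hs hfree
  have hs' : ∀ i, e (e.symm (s i)) = s i := fun i => e.apply_symm_apply _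
  have hmono : StrictMono (fun i => π2 (e.symm (s i))) := by
    intro i j hij
    simp only
    rcases lt_trichotomy (π2 (e.symm (s i))) (π2 (e.symm (s j))) with h | h | h
    · exact h
    · exfalso
      have h5 := l4 _ _ h
      rw [← l2 (e.symm (s i)), ← l2 (e.symm (s j)), hs', hs'] at h5
      exact hfree i j hij h5
    · exfalso
      have h5 := l1 _ _ h
      rw [hs', hs'] at h5
      exact absurd (hs hij) (not_lt.2 h5.le)
  have hty : ∀ i, tC (s i) = t2 (e.symm (s i)) := fun i => by rw [← l2, hs']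
  have hpr : ∀ i j, i < j → dC (s i) (s j) = d2 (e.symm (s i)) (e.symm (s j)) := by
    intro i j hij
    rw [← l3 _ _ (hmono hij), hs', hs']
  obtain ⟨v, hv1, hv2⟩ := hsys.real m (fun i => e.symm (s i)) hm hmono (fun i j hij => by
    rw [← hpr i j hij, ← hty i, ← hty j]
    exact hfree i j hij)
  exact ⟨v, fun i => (hv1 i).trans (hty i).symm, fun i j hij =>
    (hv2 i j hij).trans (hpr i j hij).symm⟩

end Pool.Agent.H92.NR
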