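import Pool.Agent.H53.NR.Targets

/-!
# Board nrt_modules, module STP: one step of the partite construction
-/

set_option autoImplicit false

namespace Pool.Agent.H92.NR

open Pool.Agent.H68.BP Pool.Agent.H58.SF Pool.Agent.H53.GC Pool.Agent.H53.NR

open Combinatorics

section

variable {Q P X : Type} [LinearOrder Q] (π : P → Q) (t : P → X) (d : P → P → X) {a : ℕ}
  (α : Fin a → Q) (tA : Fin a → X) (dA : Fin a → Fin a → X) (fr : X → X → X) (ι : Type)

/-- the vertices which may be the `i`-th vertex of a copy -/
abbrev DD (i : Fin a) : Type := {x : P // π x = α i ∧ t x = tA i}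

/-- the copies -/
abbrev EE : Type := {e : Fin a → P // SysCopy π t d α tA dA e}

/-- the new set -/
abbrev PP : Type :=
  (Σ i : Fin a, (ι → DD π t α tA i)) ⊕ (Line (EE π t d α tA dA) ι × P)

variable {π t d α tA dA ι}

/-- the point of the line -/
def ln (l : Line (EE π t d α tA dA) ι) (i : Fin a) (y : DD π t α tA i) : ι → DD π t α tA i :=
  fun n => (l.idxFun n).elim y (fun e => ⟨e.1 i, e.2.part i, e.2.type i⟩)

omit [LinearOrder Q] in
theorem ln_inj (l : Line (EE π t d α tA dA) ι) (i : Fin a) {y y' : DD π t α tA i}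
    (h : ln l i y = ln l i y') : y = y' := by
  obtain ⟨n, hn⟩ := l.proper
  have h1 := congrFun h n
  unfold ln at h1
  rw [hn] at h1
  exact h1

/-- the part of a point -/
def p' : PP π t d α tA dA ι → Q
  | .inl z => α z.1
  | .inr z => π z.2

/-- the type of a point -/
def t' : PP π t d α tA dA ι → X
  | .inl z => tA z.1
  | .inr z => t z.2

open Classical in
/-- the type of a pair -/
noncomputable def d' : PP π t d α tA dA ι → PP π t d α tA dA ι → X
  | .inl ⟨i, u⟩, .inl ⟨j, u'⟩ =>
    if h : ∃ n, d (u n).1 (u' n).1 ≠ dA i j then d (u h.choose).1 (u' h.choose).1 else dA i j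
  | .inl ⟨i, u⟩, .inr ⟨l, x⟩ =>
    if h : ∃ y : DD π t α tA i, u = ln l i y then d h.choose.1 x else fr (tA i) (t x)
  | .inr ⟨l, x⟩, .inl ⟨j, u⟩ =>
    if h : ∃ y : DD π t α tA j, u = ln l j y then d x h.choose.1 else fr (t x) (tA j)
  | .inr ⟨l, x⟩, .inr ⟨l', x'⟩ => if l = l' then d x x' else fr (t x) (t x')

/-- `z` is the image of `x` in the copy `l` -/
def Im (l : Line (EE π t d α tA dA) ι) : PP π t d α tA dA ι → P → Prop
  | .inl ⟨i, u⟩, x => ∃ y : DD π t α tA i, y.1 = x ∧ u = ln l i y
  | .inr ⟨l', x'⟩, x => l' = l ∧ x' = x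

omit [LinearOrder Q] in
theorem Im_part {l : Line (EE π t d α tA dA) ι} {z : PP π t d α tA dA ι} {x : P} (h : Im l z x) :
    p' z = π x := by
  rcases z with ⟨i, u⟩ | ⟨l', x'⟩
  · obtain ⟨y, rfl, -⟩ := h
    exact y.2.1.symm
  · obtain ⟨-, rfl⟩ := h
    rfl

omit [LinearOrder Q] in
theorem Im_type {l : Line (EE π t d α tA dA) ι} {z : PP π t d α tA dA ι} {x : P} (h : Im l z x) :
    t' z = t x := by
  rcases z with ⟨i, u⟩ | ⟨l', x'⟩
  · obtain ⟨y, rfl, -⟩ := h
    exact y.2.2.symm
  · obtain ⟨-, rfl⟩ := h
    rfl

omit [LinearOrder Q] in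
theorem Im_uniq {l : Line (EE π t d α tA dA) ι} {z : PP π t d α tA dA ι} {x x' : P}
    (h : Im l z x) (h' : Im l z x') : x = x' := by
  rcases z with ⟨i, u⟩ | ⟨l', x''⟩
  · obtain ⟨y, rfl, h1⟩ := h
    obtain ⟨y', rfl, h2⟩ := h'
    exact congrArg Subtype.val (ln_inj l i (h1.symm.trans h2))
  · obtain ⟨-, rfl⟩ := h
    obtain ⟨-, rfl⟩ := h'
    rfl

theorem Im_pair (hα : StrictMono α) {l : Line (EE π t d α tA dA) ι} {z w : PP π t d α tA dA ι}
    {x y : P} (h : Im l z x) (h' : Im l w y) (hxy : π x < π y) : d' fr z w = d x y := by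
  rcases z with ⟨i, u⟩ | ⟨l', x'⟩
  · obtain ⟨v, rfl, rfl⟩ := h
    rcases w with ⟨j, u'⟩ | ⟨l'', x''⟩
    · obtain ⟨v', rfl, rfl⟩ := h'
      have hij : i < j := by
        rw [v.2.1, v'.2.1] at hxy
        exact hα.lt_iff_lt.1 hxy
      have key : ∀ n, d (ln l i v n).1 (ln l j v' n).1 ≠ dA i j →
          d (ln l i v n).1 (ln l j v' n).1 = d v.1 v'.1 := by
        intro n hn
        unfold ln at hn ⊢
        rcases hc : l.idxFun n with _ | e
        · rfl
        · rw [hc] at hn
          exact absurd (e.2.pair i j hij) hn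
      unfold d'
      simp only
      split_ifs with hex
      · exact key _ hex.choose_spec
      · push Not at hex
        obtain ⟨n, hn⟩ := l.proper
        have h1 := hex n
        unfold ln at h1
        rw [hn] at h1
        exact h1.symm
    · obtain ⟨rfl, rfl⟩ := h'
      have hex : ∃ y : DD π t α tA i, ln l'' i v = ln l'' i y := ⟨v, rfl⟩
      unfold d'
      simp only
      rw [dif_pos hex, ← ln_inj l'' i hex.choose_spec]
  · obtain ⟨rfl, rfl⟩ := h
    rcases w with ⟨j, u'⟩ | ⟨l'', x''⟩
    · obtain ⟨v', rfl, rfl⟩ := h'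
      have hex : ∃ y : DD π t α tA j, ln l' j v' = ln l' j y := ⟨v', rfl⟩
      unfold d'
      simp only
      rw [dif_pos hex, ← ln_inj l' j hex.choose_spec]
    · obtain ⟨rfl, rfl⟩ := h'
      unfold d'
      simp only [if_true]

open Classical in
/-- the embedding -/
noncomputable def ph (l : Line (EE π t d α tA dA) ι) (x : P) : PP π t d α tA dA ι :=
  if h : ∃ i, π x = α i ∧ t x = tA i then .inl ⟨h.choose, ln l h.choose ⟨x, h.choose_spec⟩⟩ else
    .inr (l, x)

theorem ph_Im (l : Line (EE π t d α tA dA) ι) (x : P) : Im l (ph l x) x := by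
  unfold ph
  split_ifs with h
  · exact ⟨⟨x, h.choose_spec⟩, rfl, rfl⟩
  · exact ⟨rfl, rfl⟩

theorem ph_eq (hα : StrictMono α) (l : Line (EE π t d α tA dA) ι) {x : P} {i : Fin a}
    (hx : π x = α i ∧ t x = tA i) : ph l x = .inl ⟨i, ln l i ⟨x, hx⟩⟩ := by
  have key : ∀ (j : Fin a) (hj : π x = α j ∧ t x = tA j),
      (.inl ⟨j, ln l j ⟨x, hj⟩⟩ : PP π t d α tA dA ι) = .inl ⟨i, ln l i ⟨x, hx⟩⟩ := by
    intro j hj
    have h1 : j = i := hα.injective (hj.1.symm.trans hx.1)
    subst h1
    rfl
  have h : ∃ i, π x = α i ∧ t x = tA i := ⟨i, hx⟩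
  unfold ph
  rw [dif_pos h]
  exact key _ _

/-- the new system -/
theorem sysOK {V : Type} {c : V → V → X} {M : ℕ} (hα : StrictMono α) {tQ : Q → X}
    {dQ : Q → Q → X} (h1 : ∀ i, tA i = tQ (α i)) (h2 : ∀ i j, i < j → dA i j = dQ (α i) (α j))
    (h3 : OrdOK c fr M tA dA) (h4 : SysOK c fr M tQ dQ π t d) :
    SysOK (P := PP π t d α tA dA ι) c fr M tQ dQ p' t' (d' fr) where
  type z := by
    rcases z with ⟨i, u⟩ | ⟨l', x'⟩
    · exact h1 i
    · exact h4.type x'
  pair z w hzw := by
    rcases z with ⟨i, u⟩ | ⟨l, x⟩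
    · rcases w with ⟨j, u'⟩ | ⟨l', x'⟩
      · have hij : i < j := hα.lt_iff_lt.1 hzw
        unfold d'
        simp only
        split_ifs with hex
        · have h5 := h4.pair (u hex.choose).1 (u' hex.choose).1 (by
            rw [(u hex.choose).2.1, (u' hex.choose).2.1]
            exact hzw)
          rw [(u hex.choose).2.1, (u' hex.choose).2.1, (u hex.choose).2.2,
            (u' hex.choose).2.2] at h5
          exact h5
        · exact Or.inl (h2 i j hij)
      · unfold d'
        simp only
        split_ifs with hex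
        · have h5 := h4.pair hex.choose.1 x' (by
            rw [hex.choose.2.1]
            exact hzw)
          rw [hex.choose.2.1, hex.choose.2.2] at h5
          exact h5
        · exact Or.inr rfl
    · rcases w with ⟨j, u'⟩ | ⟨l', x'⟩
      · unfold d'
        simp only
        split_ifs with hex
        · have h5 := h4.pair x hex.choose.1 (by
            rw [hex.choose.2.1]
            exact hzw)
          rw [hex.choose.2.1, hex.choose.2.2] at h5
          exact h5
        · exact Or.inr rfl
      · unfold d'
        simp only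
        split_ifs with hex
        · exact h4.pair x x' hzw
        · exact Or.inr rfl
  real m s hm hs hfree := by
    by_cases hA : ∃ (k : Fin m) (l : Line (EE π t d α tA dA) ι) (x : P), s k = .inr (l, x)
    · obtain ⟨k, l, x, hk⟩ := hA
      have hIm : ∀ j, ∃ y, Im l (s j) y := by
        intro j
        rcases lt_trichotomy j k with hj | hj | hj
        · have h5 := hfree j k hj
          rw [hk] at h5
          rcases hz : s j with ⟨i, u⟩ | ⟨l', x'⟩
          · rw [hz] at h5
            unfold d' at h5
            simp only at h5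
            split_ifs at h5 with hex
            · exact ⟨hex.choose.1, hex.choose, rfl, hex.choose_spec⟩
            · exact absurd rfl h5
          · rw [hz] at h5
            unfold d' at h5
            simp only at h5
            split_ifs at h5 with hex
            · exact ⟨x', hex, rfl⟩
            · exact absurd rfl h5
        · refine ⟨x, ?_⟩
          rw [hj, hk]
          exact ⟨rfl, rfl⟩
        · have h5 := hfree k j hj
          rw [hk] at h5
          rcases hz : s j with ⟨i, u⟩ | ⟨l', x'⟩
          · rw [hz] at h5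
            unfold d' at h5
            simp only at h5
            split_ifs at h5 with hex
            · exact ⟨hex.choose.1, hex.choose, rfl, hex.choose_spec⟩
            · exact absurd rfl h5
          · rw [hz] at h5
            unfold d' at h5
            simp only at h5
            split_ifs at h5 with hex
            · exact ⟨x', hex.symm, rfl⟩
            · exact absurd rfl h5
      choose s' hs' using hIm
      have hmono : StrictMono (fun i => π (s' i)) := by
        intro i j hij
        have h5 := hs hij
        simp only [Im_part (hs' i), Im_part (hs' j)] at h5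
        exact h5
      have hpair : ∀ i j, i < j → d' fr (s i) (s j) = d (s' i) (s' j) := fun i j hij =>
        Im_pair fr hα (hs' i) (hs' j) (hmono hij)
      have hty : ∀ i, t' (s i) = t (s' i) := fun i => Im_type (hs' i)
      obtain ⟨v, hv1, hv2⟩ := h4.real m s' hm hmono (fun i j hij => by
        rw [← hpair i j hij, ← hty i, ← hty j]
        exact hfree i j hij)
      exact ⟨v, fun i => (hv1 i).trans (hty i).symm, fun i j hij =>
        (hv2 i j hij).trans (hpair i j hij).symm⟩
    · have hB : ∀ k, ∃ z, s k = .inl z := by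
        intro k
        rcases hz : s k with z | ⟨l', x'⟩
        · exact ⟨z, rfl⟩
        · exact absurd ⟨k, l', x', hz⟩ hA
      choose z hz using hB
      have hmono : StrictMono (fun k => (z k).1) := by
        intro i j hij
        have h5 := hs hij
        simp only [hz] at h5
        exact hα.lt_iff_lt.1 h5
      have hty : ∀ k, t' (s k) = tA (z k).1 := fun k => by rw [hz]; rfl
      have hpair : ∀ i j, i < j → d' fr (s i) (s j) = dA (z i).1 (z j).1 := by
        intro i j hij
        have h5 := hfree i j hij
        rw [hz i, hz j] at h5 ⊢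
        have h6 : (z i).1 < (z j).1 := hmono hij
        rcases hzi : z i with ⟨i', u⟩
        rcases hzj : z j with ⟨j', u'⟩
        rw [hzi, hzj] at h5 h6
        unfold d' at h5 ⊢
        simp only at h5 h6 ⊢
        split_ifs at h5 ⊢ with hex
        · exfalso
          have h7 := h4.pair (u hex.choose).1 (u' hex.choose).1 (by
            rw [(u hex.choose).2.1, (u' hex.choose).2.1]
            exact hα h6)
          rw [(u hex.choose).2.1, (u' hex.choose).2.1, (u hex.choose).2.2,
            (u' hex.choose).2.2] at h7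
          rcases h7 with h7 | h7
          · exact hex.choose_spec (h7.trans (h2 i' j' h6).symm)
          · exact h5 h7
        · rfl
      obtain ⟨v, hv1, hv2⟩ := h3 m (fun k => (z k).1) hm hmono (fun i j hij => by
        rw [← hpair i j hij, ← hty i, ← hty j]
        exact hfree i j hij)
      exact ⟨v, fun i => (hv1 i).trans (hty i).symm, fun i j hij =>
        (hv2 i j hij).trans (hpair i j hij).symm⟩

end

/-- One step of the partite construction. -/
theorem pf_STP : T_STP := by
  classical
  intro V X Q P κ _ _ _ c fr M π t d a α tA dA hα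
  obtain ⟨ι, hι, hHJ⟩ := Line.exists_mono_in_high_dimension (EE π t d α tA dA) κ
  have hfin : Finite (Line (EE π t d α tA dA) ι) := by
    refine Finite.of_injective (fun l : Line (EE π t d α tA dA) ι => l.idxFun) ?_
    rintro ⟨f, hf⟩ ⟨g, hg⟩ h
    simp only at h
    subst h
    rfl
  refine ⟨PP π t d α tA dA ι, inferInstance, p', t', d' fr, ?_, ?_⟩
  · intro χ
    obtain ⟨l, cc, hl⟩ := hHJ (fun u => χ (fun i => .inl ⟨i, fun n =>
      ⟨(u n).1 i, (u n).2.part i, (u n).2.type i⟩⟩))
    refine ⟨ph l, ⟨?_, fun x => Im_part (ph_Im l x), fun x => Im_type (ph_Im l x),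
      fun x y hxy => Im_pair fr hα (ph_Im l x) (ph_Im l y) hxy⟩, ?_⟩
    · intro x y hxy
      have h1 := ph_Im l y
      rw [← hxy] at h1
      exact Im_uniq (ph_Im l x) h1
    · have key : ∀ e : Fin a → P, SysCopy π t d α tA dA e → χ (fun i => ph l (e i)) = cc := by
        intro e he
        rw [← hl ⟨e, he⟩]
        congr 1
        funext i
        rw [ph_eq hα l ⟨he.part i, he.type i⟩]
        congr 2
        funext n
        have h9 : ((l : EE π t d α tA dA → ι → EE π t d α tA dA) ⟨e, he⟩) n =
            (l.idxFun n).getD ⟨e, he⟩ := rfl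
        apply Subtype.ext
        simp only [h9]
        unfold ln
        cases l.idxFun n <;> rfl
      intro e e' he he'
      rw [key e he, key e' he']
  · intro tQ dQ h1 h2 h3 h4
    exact sysOK fr hα h1 h2 h3 h4

end Pool.Agent.H92.NR
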